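import Mathlib

/-!
# Counting zeros of affine forms in a box
-/

set_option autoImplicit false

namespace Pool.Agent.J6H71.Sum3

open Finset

/-- A set of points of a box whose points are determined by the coordinates other than `l`. -/
theorem card_mul_le {ι : Type*} [Fintype ι] [DecidableEq ι] {U : ℕ} (S : Finset (ι → Fin U)) (l : ι)
    (h : ∀ z ∈ S, ∀ z' ∈ S, (∀ j, j ≠ l → z j = z' j) → z = z') :
    S.card * U ≤ U ^ Fintype.card ι := by
  classical
  have h1 : (S ×ˢ (univ : Finset (Fin U))).card ≤ (univ : Finset (ι → Fin U)).card := by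
    apply Finset.card_le_card_of_injOn (fun p => Function.update p.1 l p.2)
    · intro p _; simp
    · rintro ⟨z, y⟩ hz ⟨z', y'⟩ hz' hzz
      simp only [Finset.coe_product, Set.mem_prod, Finset.mem_coe] at hz hz'
      dsimp only at hzz
      have hy : y = y' := by
        have := congrFun hzz l
        simpa using this
      have hzz' : z = z' := by
        apply h z hz.1 z' hz'.1
        intro j hj
        have := congrFun hzz j
        simpa [Function.update_of_ne hj] using this
      rw [hy, hzz']
  simpa [Finset.card_product, Fintype.card_pi, Finset.prod_const] using h1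

open Classical in
/-- A nonzero affine form has few zeros in a box. -/
theorem card_zeros {ι : Type*} [Fintype ι] [DecidableEq ι] {U : ℕ} (a : ℝ) (b : ι → ℝ)
    (h : a ≠ 0 ∨ ∃ l, b l ≠ 0) :
    (univ.filter (fun z : ι → Fin U => a + ∑ l, b l * ((z l : ℕ) : ℝ) = 0)).card * U ≤
      U ^ Fintype.card ι := by
  by_cases hb : ∃ l, b l ≠ 0
  · obtain ⟨l, hl⟩ := hb
    apply card_mul_le _ l
    intro z hz z' hz' hzz
    rw [Finset.mem_filter] at hz hz'
    have h1 := hz.2
    have h2 := hz'.2
    rw [← Finset.add_sum_erase _ _ (Finset.mem_univ l)] at h1 h2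
    have h3 : ∑ j ∈ univ.erase l, b j * ((z j : ℕ) : ℝ) = ∑ j ∈ univ.erase l, b j * ((z' j : ℕ) : ℝ) := by
      apply Finset.sum_congr rfl
      intro j hj
      rw [hzz j (Finset.ne_of_mem_erase hj)]
    rw [h3] at h1
    have h4 : b l * (((z l : ℕ) : ℝ) - ((z' l : ℕ) : ℝ)) = 0 := by linarith
    have h5 : ((z l : ℕ) : ℝ) - ((z' l : ℕ) : ℝ) = 0 := by
      rcases mul_eq_zero.mp h4 with h | h
      · exact absurd h hl
      · exact h
    have h6 : (z l : ℕ) = (z' l : ℕ) := by
      have : ((z l : ℕ) : ℝ) = ((z' l : ℕ) : ℝ) := by linarith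
      exact_mod_cast this
    funext j
    by_cases hj : j = l
    · subst hj; exact Fin.ext h6
    · exact hzz j hj
  · push Not at hb
    have ha : a ≠ 0 := by
      rcases h with h | ⟨l, hl⟩
      · exact h
      · exact absurd (hb l) hl
    have : (univ.filter (fun z : ι → Fin U => a + ∑ l, b l * ((z l : ℕ) : ℝ) = 0)) = ∅ := by
      rw [Finset.filter_eq_empty_iff]
      intro z _
      have : ∑ l, b l * ((z l : ℕ) : ℝ) = 0 := Finset.sum_eq_zero (fun l _ => by rw [hb l, zero_mul])
      rw [this, add_zero]; exact ha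
    rw [this]; simp

end Pool.Agent.J6H71.Sum3
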