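import Mathlib

/-!
# Differences of `T` vectors with exactly three entries

The differences of `T` vectors hit at most `3 T m (log₂ T) ^ 2` of the `m ^ 3` transversal triples of
coordinates in three classes of `m` coordinates.
-/

set_option autoImplicit false

namespace Pool.Agent.J6H71.Sum3

open Finset

/-- For each family `A` of vectors there are sets `M p` of at most `log₂ |A|` directions such that the
direction of each pair of vectors which differ in one coordinate only belongs to `M p` or `M q`. -/
theorem exists_directions {ι R : Type*} [DecidableEq ι] (A : Finset (ι → R)) :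
    ∃ M : (ι → R) → Finset ι, (∀ p ∈ A, 2 ^ (M p).card ≤ A.card) ∧
      ∀ p ∈ A, ∀ q ∈ A, ∀ i, p i ≠ q i → (∀ j, j ≠ i → p j = q j) → i ∈ M p ∨ i ∈ M q := by
  classical
  induction hn : A.card using Nat.strong_induction_on generalizing A with
  | _ n ih =>
  by_cases h1 : ∃ p ∈ A, ∃ q ∈ A, p ≠ q
  · obtain ⟨p0, hp0, q0, hq0, hne⟩ := h1
    obtain ⟨i0, hi0⟩ := Function.ne_iff.mp hne
    have hlt : ∀ c : R, (A.filter (fun p => p i0 = c)).card < n := by
      intro c
      rw [← hn]
      apply Finset.card_lt_card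
      rw [Finset.ssubset_iff_of_subset (Finset.filter_subset _ _)]
      by_cases hc : p0 i0 = c
      · refine ⟨q0, hq0, ?_⟩
        rw [Finset.mem_filter]
        rintro ⟨-, h⟩
        exact hi0 (hc.trans h.symm)
      · refine ⟨p0, hp0, ?_⟩
        rw [Finset.mem_filter]
        rintro ⟨-, h⟩
        exact hc h
    have := fun c => ih _ (hlt c) (A.filter (fun p => p i0 = c)) rfl
    choose M hM1 hM2 using this
    refine ⟨fun p => if 2 * (A.filter (fun q => q i0 = p i0)).card ≤ A.card then
      insert i0 (M (p i0) p) else M (p i0) p, ?_, ?_⟩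
    · intro p hp
      have hmem : p ∈ A.filter (fun q => q i0 = p i0) := by simp [hp]
      have h2 := hM1 (p i0) p hmem
      have h3 : (A.filter (fun q => q i0 = p i0)).card ≤ A.card :=
        Finset.card_le_card (Finset.filter_subset _ _)
      rw [← hn]
      dsimp only
      split_ifs with hc
      · calc 2 ^ (insert i0 (M (p i0) p)).card ≤ 2 ^ ((M (p i0) p).card + 1) :=
              Nat.pow_le_pow_right (by norm_num) (Finset.card_insert_le _ _)
          _ = 2 * 2 ^ (M (p i0) p).card := by ring
          _ ≤ 2 * (A.filter (fun q => q i0 = p i0)).card := by omega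
          _ ≤ A.card := hc
      · omega
    · intro p hp q hq i hi hj
      dsimp only
      have sub : ∀ r : ι → R, M (r i0) r ⊆
          (if 2 * (A.filter (fun q => q i0 = r i0)).card ≤ A.card then
            insert i0 (M (r i0) r) else M (r i0) r) := by
        intro r
        split_ifs
        · exact Finset.subset_insert _ _
        · exact Finset.Subset.refl _
      by_cases hii : i = i0
      · subst hii
        have hdis : Disjoint (A.filter (fun r => r i = p i)) (A.filter (fun r => r i = q i)) := by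
          rw [Finset.disjoint_filter]
          intro r _ h1 h2
          exact hi (h1.symm.trans h2)
        have hcard : (A.filter (fun r => r i = p i)).card + (A.filter (fun r => r i = q i)).card
            ≤ A.card := by
          rw [← Finset.card_union_of_disjoint hdis]
          exact Finset.card_le_card (Finset.union_subset (Finset.filter_subset _ _)
            (Finset.filter_subset _ _))
        by_cases hc : 2 * (A.filter (fun r => r i = p i)).card ≤ A.card
        · left; rw [if_pos hc]; exact Finset.mem_insert_self _ _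
        · right
          rw [if_pos (by omega)]; exact Finset.mem_insert_self _ _
      · have hpq : p i0 = q i0 := hj i0 (fun h => hii h.symm)
        have hp' : p ∈ A.filter (fun r => r i0 = p i0) := by simp [hp]
        have hq' : q ∈ A.filter (fun r => r i0 = p i0) := by simp [hq, hpq]
        rcases hM2 (p i0) p hp' q hq' i hi hj with h | h
        · left; exact sub p h
        · right; apply sub q; rw [← hpq]; exact h
  · push Not at h1
    refine ⟨fun _ => ∅, ?_, ?_⟩
    · intro p hp
      rw [← hn]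
      simpa using Finset.card_pos.mpr ⟨p, hp⟩
    · intro p hp q hq i hi _
      exact absurd (congrFun (h1 p hp q hq) i) hi

/-- The transversal triple `(i, j, k)` is the set of coordinates in which two vectors of `G` differ. -/
def Covered {m : ℕ} {R : Type*} (G : Finset (Fin 3 × Fin m → R)) (s : Fin m × Fin m × Fin m) : Prop :=
  ∃ p ∈ G, ∃ q ∈ G, (∀ l, p (0, l) = q (0, l) ↔ l ≠ s.1) ∧ (∀ l, p (1, l) = q (1, l) ↔ l ≠ s.2.1) ∧
    ∀ l, p (2, l) = q (2, l) ↔ l ≠ s.2.2

open Classical in
theorem card_covered {m T : ℕ} {R : Type*} (G : Finset (Fin 3 × Fin m → R)) (hG : G.card ≤ T) :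
    (univ.filter (fun s : Fin m × Fin m × Fin m => Covered G s)).card ≤
      3 * (T * (Nat.log 2 T) ^ 2 * m) := by
  have key : ∀ c : Fin 3, ∃ D : (Fin 3 × Fin m → R) → Finset (Fin m),
      (∀ p ∈ G, (D p).card ≤ Nat.log 2 T) ∧
      ∀ p ∈ G, ∀ q ∈ G, ∀ i, (∀ l, p (c, l) = q (c, l) ↔ l ≠ i) → i ∈ D p ∨ i ∈ D q := by
    intro c
    obtain ⟨M, hM1, hM2⟩ := exists_directions (G.image (fun p => fun l => p (c, l)))
    refine ⟨fun p => M (fun l => p (c, l)), ?_, ?_⟩
    · intro p hp
      have h1 := hM1 (fun l => p (c, l)) (Finset.mem_image_of_mem _ hp)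
      have h2 : (G.image (fun p => fun l => p (c, l))).card ≤ T := Finset.card_image_le.trans hG
      have hT : T ≠ 0 := by
        rintro rfl
        have : 0 < 2 ^ (M fun l => p (c, l)).card := by positivity
        omega
      exact Nat.le_log_of_pow_le (by norm_num) (h1.trans h2)
    · intro p hp q hq i hi
      refine hM2 _ (Finset.mem_image_of_mem _ hp) _ (Finset.mem_image_of_mem _ hq) i ?_ ?_
      · intro h
        exact ((hi i).mp h) rfl
      · intro j hj
        exact (hi j).mpr hj
  choose D hD1 hD2 using key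
  have hsub : (univ.filter (fun s : Fin m × Fin m × Fin m => Covered G s)) ⊆
      G.biUnion (fun p => (D 0 p ×ˢ (D 1 p ×ˢ (univ : Finset (Fin m)))) ∪
        ((D 0 p ×ˢ ((univ : Finset (Fin m)) ×ˢ D 2 p)) ∪
        ((univ : Finset (Fin m)) ×ˢ (D 1 p ×ˢ D 2 p)))) := by
    rintro ⟨i, j, k⟩ hs
    rw [Finset.mem_filter] at hs
    obtain ⟨-, p, hp, q, hq, h0, h1, h2⟩ := hs
    have a0 := hD2 0 p hp q hq i h0
    have a1 := hD2 1 p hp q hq j h1
    have a2 := hD2 2 p hp q hq k h2
    simp only [Finset.mem_biUnion, Finset.mem_union, Finset.mem_product, Finset.mem_univ, and_true,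
      true_and]
    rcases a0 with a0 | a0 <;> rcases a1 with a1 | a1 <;> rcases a2 with a2 | a2 <;>
      first
        | exact ⟨p, hp, Or.inl ⟨a0, a1⟩⟩
        | exact ⟨q, hq, Or.inl ⟨a0, a1⟩⟩
        | exact ⟨p, hp, Or.inr (Or.inl ⟨a0, a2⟩)⟩
        | exact ⟨q, hq, Or.inr (Or.inl ⟨a0, a2⟩)⟩
        | exact ⟨p, hp, Or.inr (Or.inr ⟨a1, a2⟩)⟩
        | exact ⟨q, hq, Or.inr (Or.inr ⟨a1, a2⟩)⟩
  refine (Finset.card_le_card hsub).trans ?_
  refine Finset.card_biUnion_le.trans ?_
  have hone : ∀ p ∈ G, ((D 0 p ×ˢ (D 1 p ×ˢ (univ : Finset (Fin m)))) ∪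
        ((D 0 p ×ˢ ((univ : Finset (Fin m)) ×ˢ D 2 p)) ∪
        ((univ : Finset (Fin m)) ×ˢ (D 1 p ×ˢ D 2 p)))).card ≤ 3 * ((Nat.log 2 T) ^ 2 * m) := by
    intro p hp
    refine (Finset.card_union_le _ _).trans ?_
    refine (Nat.add_le_add_left (Finset.card_union_le _ _) _).trans ?_
    simp only [Finset.card_product, Finset.card_univ, Fintype.card_fin]
    have b0 := hD1 0 p hp
    have b1 := hD1 1 p hp
    have b2 := hD1 2 p hp
    have c0 : (D 0 p).card * ((D 1 p).card * m) ≤ (Nat.log 2 T) ^ 2 * m := by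
      calc (D 0 p).card * ((D 1 p).card * m) ≤ Nat.log 2 T * (Nat.log 2 T * m) := by gcongr
        _ = _ := by ring
    have c1 : (D 0 p).card * (m * (D 2 p).card) ≤ (Nat.log 2 T) ^ 2 * m := by
      calc (D 0 p).card * (m * (D 2 p).card) ≤ Nat.log 2 T * (m * Nat.log 2 T) := by gcongr
        _ = _ := by ring
    have c2 : m * ((D 1 p).card * (D 2 p).card) ≤ (Nat.log 2 T) ^ 2 * m := by
      calc m * ((D 1 p).card * (D 2 p).card) ≤ m * (Nat.log 2 T * Nat.log 2 T) := by gcongr
        _ = _ := by ring
    omega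
  calc ∑ p ∈ G, _ ≤ ∑ _p ∈ G, 3 * ((Nat.log 2 T) ^ 2 * m) := Finset.sum_le_sum hone
    _ = G.card * (3 * ((Nat.log 2 T) ^ 2 * m)) := by rw [Finset.sum_const, smul_eq_mul]
    _ ≤ T * (3 * ((Nat.log 2 T) ^ 2 * m)) := by gcongr
    _ = 3 * (T * (Nat.log 2 T) ^ 2 * m) := by ring

end Pool.Agent.J6H71.Sum3
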