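import Mathlib

/-!
# Transcripts of programs with a free dictionary

A program computes one value after the other; the next value may depend on the transcript so far. The
transcript tells for each computed value the first index at which the same value had been computed
(the number of the earlier values if it is new). If the values are the images of formal values under a
map that is injective on the computed formal values then the transcript is the formal one.
-/

set_option autoImplicit false

namespace Pool.Agent.J6H71.Sum3

open Classical in
/-- Transcript and list of the first `t` values, if the next value is `val τ` after the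
transcript `τ`. -/
noncomputable def trans {V : Type*} (val : List ℕ → V) : ℕ → List ℕ × List V
  | 0 => ([], [])
  | t + 1 => ((trans val t).1 ++ [(trans val t).2.idxOf (val (trans val t).1)],
      (trans val t).2 ++ [val (trans val t).1])

open Classical in
lemma idxOf_map_of_injOn {V W : Type*} (φ : V → W) (v : V) (L : List V)
    (h : ∀ u ∈ L, φ u = φ v → u = v) : (L.map φ).idxOf (φ v) = L.idxOf v := by
  induction L with
  | nil => simp
  | cons a L ih =>
    rw [List.map_cons, List.idxOf_cons, List.idxOf_cons,
      ih (fun u hu => h u (List.mem_cons_of_mem _ hu))]
    by_cases hav : a = v
    · subst hav; simp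
    · have h2 : φ a ≠ φ v := fun he => hav (h a (by simp) he)
      have e1 : (φ a == φ v) = false := by simpa using h2
      have e2 : (a == v) = false := by simpa using hav
      rw [e1, e2]

lemma trans_length {V : Type*} (val : List ℕ → V) (t : ℕ) : (trans val t).2.length = t := by
  induction t with
  | zero => simp [trans]
  | succ t ih => simp [trans, ih]

lemma trans_mono {V : Type*} (val : List ℕ → V) {s t : ℕ} (h : s ≤ t) (v : V)
    (hv : v ∈ (trans val s).2) : v ∈ (trans val t).2 := by
  induction t, h using Nat.le_induction with
  | base => exact hv
  | succ t _ ih => simp [trans, ih]

open Classical in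
lemma trans_map {V W : Type*} (val : List ℕ → V) (φ : V → W) (T : ℕ)
    (h : ∀ u ∈ (trans val T).2, ∀ v ∈ (trans val T).2, φ u = φ v → u = v) :
    trans (fun τ => φ (val τ)) T = ((trans val T).1, (trans val T).2.map φ) := by
  induction T with
  | zero => simp [trans]
  | succ T ih =>
    have hIH := ih (fun u hu v hv huv => h u (trans_mono val (Nat.le_succ T) u hu) v
      (trans_mono val (Nat.le_succ T) v hv) huv)
    have e : (List.map φ (trans val T).2).idxOf (φ (val (trans val T).1)) =
        (trans val T).2.idxOf (val (trans val T).1) :=
      idxOf_map_of_injOn φ _ _ (fun u hu huv => h u (trans_mono val (Nat.le_succ T) u hu) _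
        (by simp [trans]) huv)
    simp only [trans, hIH, List.map_append, List.map_cons, List.map_nil, e]

/-- All transcripts up to time `T` agree with the formal ones. -/
lemma trans_eq {V W : Type*} (val : List ℕ → V) (φ : V → W) (T : ℕ)
    (h : ∀ u ∈ (trans val T).2, ∀ v ∈ (trans val T).2, φ u = φ v → u = v) (t : ℕ) (ht : t ≤ T) :
    (trans (fun τ => φ (val τ)) t).1 = (trans val t).1 := by
  rw [trans_map val φ t (fun u hu v hv huv => h u (trans_mono val ht u hu) v
    (trans_mono val ht v hv) huv)]

end Pool.Agent.J6H71.Sum3
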