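import Mathlib
import Pool.Agent.J6H71.Sum3.Trans

/-!
# Generic group programs with a free dictionary
-/

set_option autoImplicit false

namespace Pool.Agent.J6H71.Sum3

/-- An instance of 3SUM: `n` different integers of absolute value at most `N`. -/
def Valid (n N : ℕ) (x : Fin n → ℤ) : Prop := Function.Injective x ∧ ∀ i, |x i| ≤ (N : ℤ)

/-- One of the numbers is the sum of two others. -/
def HasSum {n : ℕ} (x : Fin n → ℤ) : Prop :=
  ∃ i j k, i ≠ j ∧ i ≠ k ∧ j ≠ k ∧ x i + x j = x k

/-- A generic program for `n` numbers. The argument of the functions is the list of what it knows: for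
each value computed so far the first index at which the same value was computed. It chooses the
coefficients and the constant term of the next affine form in the input, or it gives an answer. -/
structure Prog (n : ℕ) where
  coeff : List ℕ → Fin n → ℝ
  const : List ℕ → ℝ
  answer : List ℕ → Option Bool

namespace Prog

variable {n : ℕ}

/-- The value computed after the transcript `τ`. -/
def value (P : Prog n) (x : Fin n → ℤ) (τ : List ℕ) : ℝ := P.const τ + ∑ i, P.coeff τ i * (x i : ℝ)

/-- The transcript of the first `t` values. -/
noncomputable def tr (P : Prog n) (x : Fin n → ℤ) (t : ℕ) : List ℕ := (trans (P.value x) t).1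

/-- The program gives the answer `b` after it has computed exactly `t` values. -/
def Answers (P : Prog n) (x : Fin n → ℤ) (t : ℕ) (b : Bool) : Prop :=
  P.answer (P.tr x t) = some b ∧ ∀ s < t, P.answer (P.tr x s) = none

end Prog

end Pool.Agent.J6H71.Sum3
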