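import Mathlib
import Pool.Agent.J6H71.Sum3.Defs
import Pool.Agent.J6H71.Sum3.Count
import Pool.Agent.J6H71.Sum3.Cover

/-!
# Random instances of 3SUM with and without a planted solution
-/

set_option autoImplicit false

namespace Pool.Agent.J6H71.Sum3

open Finset

/-- The residues of the three classes modulo 16. -/
def res : Fin 3 → ℤ := ![1, 4, 5]

/-- The instance given by the numbers `z`. -/
def inst {m n : ℕ} (E : Fin n ≃ (Fin 3 × Fin m) ⊕ Fin (n - 3 * m)) (z : Fin 3 × Fin m → ℤ) :
    Fin n → ℤ :=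
  fun p => Sum.elim (fun l : Fin 3 × Fin m => 16 * z l + res l.1)
    (fun q : Fin (n - 3 * m) => 16 * ((q : ℕ) : ℤ) + 11) (E p)

/-- Coordinates as integers. -/
def toInt {m U : ℕ} (z : Fin 3 × Fin m → Fin U) : Fin 3 × Fin m → ℤ := fun l => ((z l : ℕ) : ℤ)

/-- A planted solution. -/
def plant {m U : ℕ} (z : Fin 3 × Fin m → Fin U) (s : Fin m × Fin m × Fin m) : Fin 3 × Fin m → ℤ :=
  fun l => if l = (2, s.2.2) then ((z (0, s.1) : ℕ) : ℤ) + ((z (1, s.2.1) : ℕ) : ℤ)
    else ((z l : ℕ) : ℤ)

variable {m n N U : ℕ} (E : Fin n ≃ (Fin 3 × Fin m) ⊕ Fin (n - 3 * m))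

lemma valid_inst (hN : 32 * U + 5 ≤ N) (hn : 16 * n + 11 ≤ N) (z : Fin 3 × Fin m → ℤ)
    (h0 : ∀ l, 0 ≤ z l) (h1 : ∀ l, z l ≤ 2 * U)
    (hi : ∀ c i i', z (c, i) = z (c, i') → i = i') : Valid n N (inst E z) := by
  have hr : ∀ c : Fin 3, res c = 1 ∨ res c = 4 ∨ res c = 5 := by decide
  have hr2 : ∀ c c' : Fin 3, (res c - res c') % 16 = 0 → c = c' := by decide
  constructor
  · intro p p' hpp
    apply E.injective
    unfold inst at hpp
    rcases hE : E p with ⟨c, i⟩ | q <;> rcases hE' : E p' with ⟨c', i'⟩ | q' <;>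
      rw [hE, hE'] at hpp <;> simp only [Sum.elim_inl, Sum.elim_inr] at hpp
    · have hc : c = c' := by
        have h3 : (res c - res c') % 16 = 0 := by omega
        exact hr2 c c' h3
      subst hc
      have : z (c, i) = z (c, i') := by omega
      rw [hi c i i' this]
    · have := hr c; omega
    · have := hr c'; omega
    · have : (q : ℕ) = (q' : ℕ) := by omega
      rw [Fin.ext this]
  · intro p
    unfold inst
    rcases hE : E p with ⟨c, i⟩ | q <;> simp only [Sum.elim_inl, Sum.elim_inr]
    · have := hr c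
      have a := h0 (c, i)
      have b := h1 (c, i)
      rw [abs_le]; constructor <;> omega
    · have := q.2
      rw [abs_le]; constructor <;> omega

lemma hasSum_inst (z : Fin 3 × Fin m → ℤ) :
    HasSum (inst E z) ↔ ∃ i j k, z (0, i) + z (1, j) = z (2, k) := by
  constructor
  · rintro ⟨a, b, c, -, -, -, h⟩
    unfold inst at h
    have hr : ∀ c : Fin 3, (c = 0 ∧ res c = 1) ∨ (c = 1 ∧ res c = 4) ∨ (c = 2 ∧ res c = 5) := by
      decide
    rcases hEa : E a with ⟨ca, i⟩ | q <;> rcases hEb : E b with ⟨cb, j⟩ | q' <;>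
      rcases hEc : E c with ⟨cc, k⟩ | q'' <;> rw [hEa, hEb, hEc] at h <;>
      simp only [Sum.elim_inl, Sum.elim_inr] at h
    · rcases hr ca with ⟨e1, f1⟩ | ⟨e1, f1⟩ | ⟨e1, f1⟩ <;>
      rcases hr cb with ⟨e2, f2⟩ | ⟨e2, f2⟩ | ⟨e2, f2⟩ <;>
      rcases hr cc with ⟨e3, f3⟩ | ⟨e3, f3⟩ | ⟨e3, f3⟩ <;>
      first
        | (exfalso; omega)
        | (subst e1 e2 e3; exact ⟨i, j, k, by omega⟩)
        | (subst e1 e2 e3; exact ⟨j, i, k, by omega⟩)
    · rcases hr ca with ⟨e1, f1⟩ | ⟨e1, f1⟩ | ⟨e1, f1⟩ <;>
      rcases hr cb with ⟨e2, f2⟩ | ⟨e2, f2⟩ | ⟨e2, f2⟩ <;> (exfalso; omega)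
    · rcases hr ca with ⟨e1, f1⟩ | ⟨e1, f1⟩ | ⟨e1, f1⟩ <;>
      rcases hr cc with ⟨e2, f2⟩ | ⟨e2, f2⟩ | ⟨e2, f2⟩ <;> (exfalso; omega)
    · rcases hr ca with ⟨e1, f1⟩ | ⟨e1, f1⟩ | ⟨e1, f1⟩ <;> (exfalso; omega)
    · rcases hr cb with ⟨e1, f1⟩ | ⟨e1, f1⟩ | ⟨e1, f1⟩ <;>
      rcases hr cc with ⟨e2, f2⟩ | ⟨e2, f2⟩ | ⟨e2, f2⟩ <;> (exfalso; omega)
    · rcases hr cb with ⟨e1, f1⟩ | ⟨e1, f1⟩ | ⟨e1, f1⟩ <;> (exfalso; omega)
    · rcases hr cc with ⟨e1, f1⟩ | ⟨e1, f1⟩ | ⟨e1, f1⟩ <;> (exfalso; omega)
    · exfalso; omega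
  · rintro ⟨i, j, k, h⟩
    refine ⟨E.symm (Sum.inl (0, i)), E.symm (Sum.inl (1, j)), E.symm (Sum.inl (2, k)), ?_, ?_, ?_, ?_⟩
    · intro he
      have := E.symm.injective he
      simp at this
    · intro he
      have := E.symm.injective he
      simp at this
    · intro he
      have := E.symm.injective he
      simp at this
    · unfold inst
      simp only [Equiv.apply_symm_apply, Sum.elim_inl]
      have e0 : res 0 = 1 := rfl
      have e1 : res 1 = 4 := rfl
      have e2 : res 2 = 5 := rfl
      rw [e0, e1, e2]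
      omega

/-- Two numbers of the same class agree. -/
def Coll (z : Fin 3 × Fin m → Fin U) (t : Fin 3 × Fin m × Fin m) : Prop :=
  t.2.1 ≠ t.2.2 ∧ z (t.1, t.2.1) = z (t.1, t.2.2)

/-- A solution at the transversal triple `s`. -/
def Sol (z : Fin 3 × Fin m → Fin U) (s : Fin m × Fin m × Fin m) : Prop :=
  (z (0, s.1) : ℕ) + (z (1, s.2.1) : ℕ) = (z (2, s.2.2) : ℕ)

open Classical in
lemma card_coll (t : Fin 3 × Fin m × Fin m) :
    (univ.filter (fun z : Fin 3 × Fin m → Fin U => Coll z t)).card * U ≤ U ^ (3 * m) := by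
  have := card_mul_le (univ.filter (fun z : Fin 3 × Fin m → Fin U => Coll z t)) (t.1, t.2.1) (by
    intro z hz z' hz' h
    rw [Finset.mem_filter] at hz hz'
    obtain ⟨-, h1, h2⟩ := hz
    obtain ⟨-, h3, h4⟩ := hz'
    funext j
    by_cases hj : j = (t.1, t.2.1)
    · subst hj
      rw [h2, h4]
      apply h
      intro he
      simp only [Prod.mk.injEq, true_and] at he
      exact h1 he.symm
    · exact h j hj)
  simpa using this

open Classical in
lemma card_sol (s : Fin m × Fin m × Fin m) :
    (univ.filter (fun z : Fin 3 × Fin m → Fin U => Sol z s)).card * U ≤ U ^ (3 * m) := by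
  have := card_mul_le (univ.filter (fun z : Fin 3 × Fin m → Fin U => Sol z s)) (2, s.2.2) (by
    intro z hz z' hz' h
    rw [Finset.mem_filter] at hz hz'
    have h2 := hz.2
    have h4 := hz'.2
    unfold Sol at h2 h4
    funext j
    by_cases hj : j = (2, s.2.2)
    · subst hj
      apply Fin.ext
      rw [← h2, ← h4, h (0, s.1) (by simp), h (1, s.2.1) (by simp)]
    · exact h j hj)
  simpa using this

open Classical in
/-- The bad null instances. -/
lemma card_bad0 (hN : 32 * U + 5 ≤ N) (hn : 16 * n + 11 ≤ N) :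
    (univ.filter (fun z : Fin 3 × Fin m → Fin U =>
      ¬ (Valid n N (inst E (toInt z)) ∧ ¬ HasSum (inst E (toInt z))))).card * U ≤
      (3 * m ^ 2 + m ^ 3) * U ^ (3 * m) := by
  have hsub : (univ.filter (fun z : Fin 3 × Fin m → Fin U =>
      ¬ (Valid n N (inst E (toInt z)) ∧ ¬ HasSum (inst E (toInt z))))) ⊆
      (univ : Finset (Fin 3 × Fin m × Fin m)).biUnion (fun t => univ.filter (fun z => Coll z t)) ∪
      (univ : Finset (Fin m × Fin m × Fin m)).biUnion (fun s => univ.filter (fun z => Sol z s)) := by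
    intro z hz
    rw [Finset.mem_filter] at hz
    by_contra hcon
    apply hz.2
    simp only [Finset.mem_union, Finset.mem_biUnion, Finset.mem_filter, Finset.mem_univ, true_and,
      not_or, not_exists] at hcon
    obtain ⟨h1, h2⟩ := hcon
    constructor
    · apply valid_inst E hN hn
      · intro l; unfold toInt; omega
      · intro l; unfold toInt; have := (z l).2; omega
      · intro c i i' hz
        by_contra hne
        apply h1 (c, i, i')
        refine ⟨hne, ?_⟩
        unfold toInt at hz
        apply Fin.ext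
        exact_mod_cast hz
    · rw [hasSum_inst]
      rintro ⟨i, j, k, h⟩
      apply h2 (i, j, k)
      unfold toInt at h
      unfold Sol
      exact_mod_cast h
  have h1 : ((univ : Finset (Fin 3 × Fin m × Fin m)).biUnion
      (fun t => univ.filter (fun z : Fin 3 × Fin m → Fin U => Coll z t))).card * U ≤
      (3 * m ^ 2) * U ^ (3 * m) := by
    calc _ ≤ (∑ t : Fin 3 × Fin m × Fin m,
          (univ.filter (fun z : Fin 3 × Fin m → Fin U => Coll z t)).card) * U :=
          Nat.mul_le_mul_right _ Finset.card_biUnion_le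
      _ = ∑ t : Fin 3 × Fin m × Fin m,
          (univ.filter (fun z : Fin 3 × Fin m → Fin U => Coll z t)).card * U := by
          rw [Finset.sum_mul]
      _ ≤ ∑ _t : Fin 3 × Fin m × Fin m, U ^ (3 * m) :=
          Finset.sum_le_sum (fun t _ => card_coll t)
      _ = (3 * m ^ 2) * U ^ (3 * m) := by
          simp only [Finset.sum_const, Finset.card_univ, Fintype.card_prod, Fintype.card_fin,
            smul_eq_mul]
          ring
  have h2 : ((univ : Finset (Fin m × Fin m × Fin m)).biUnion
      (fun s => univ.filter (fun z : Fin 3 × Fin m → Fin U => Sol z s))).card * U ≤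
      (m ^ 3) * U ^ (3 * m) := by
    calc _ ≤ (∑ s : Fin m × Fin m × Fin m,
          (univ.filter (fun z : Fin 3 × Fin m → Fin U => Sol z s)).card) * U :=
          Nat.mul_le_mul_right _ Finset.card_biUnion_le
      _ = ∑ s : Fin m × Fin m × Fin m,
          (univ.filter (fun z : Fin 3 × Fin m → Fin U => Sol z s)).card * U := by
          rw [Finset.sum_mul]
      _ ≤ ∑ _s : Fin m × Fin m × Fin m, U ^ (3 * m) :=
          Finset.sum_le_sum (fun s _ => card_sol s)
      _ = (m ^ 3) * U ^ (3 * m) := by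
          simp only [Finset.sum_const, Finset.card_univ, Fintype.card_prod, Fintype.card_fin,
            smul_eq_mul]
          ring
  calc _ ≤ (((univ : Finset (Fin 3 × Fin m × Fin m)).biUnion
      (fun t => univ.filter (fun z : Fin 3 × Fin m → Fin U => Coll z t))).card +
      ((univ : Finset (Fin m × Fin m × Fin m)).biUnion
      (fun s => univ.filter (fun z : Fin 3 × Fin m → Fin U => Sol z s))).card) * U :=
        Nat.mul_le_mul_right _ ((Finset.card_le_card hsub).trans (Finset.card_union_le _ _))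
    _ ≤ _ := by rw [add_mul, add_mul]; exact Nat.add_le_add h1 h2

open Classical in
/-- The bad planted instances. -/
lemma card_bad1 (hN : 32 * U + 5 ≤ N) (hn : 16 * n + 11 ≤ N) (s : Fin m × Fin m × Fin m) :
    (univ.filter (fun z : Fin 3 × Fin m → Fin U =>
      ¬ (Valid n N (inst E (plant z s)) ∧ HasSum (inst E (plant z s))))).card * U ≤
      (3 * m ^ 2 + m) * U ^ (3 * m) := by
  have hsub : (univ.filter (fun z : Fin 3 × Fin m → Fin U =>
      ¬ (Valid n N (inst E (plant z s)) ∧ HasSum (inst E (plant z s))))) ⊆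
      (univ : Finset (Fin 3 × Fin m × Fin m)).biUnion (fun t => univ.filter (fun z => Coll z t)) ∪
      (univ : Finset (Fin m)).biUnion
        (fun k => univ.filter (fun z => Sol z (s.1, s.2.1, k))) := by
    intro z hz
    rw [Finset.mem_filter] at hz
    by_contra hcon
    apply hz.2
    simp only [Finset.mem_union, Finset.mem_biUnion, Finset.mem_filter, Finset.mem_univ, true_and,
      not_or, not_exists] at hcon
    obtain ⟨h1, h2⟩ := hcon
    constructor
    · apply valid_inst E hN hn
      · intro l; unfold plant; split_ifs <;> omega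
      · intro l; unfold plant
        have a := (z l).2
        have b := (z (0, s.1)).2
        have c := (z (1, s.2.1)).2
        split_ifs <;> omega
      · intro c i i' hz
        unfold plant at hz
        by_contra hne
        by_cases hc : (c, i) = (2, s.2.2)
        · have hc' : (c, i') ≠ (2, s.2.2) := by
            intro h
            rw [Prod.mk.injEq] at hc h
            exact hne (hc.2.trans h.2.symm)
          rw [if_pos hc, if_neg hc'] at hz
          rw [Prod.mk.injEq] at hc
          apply h2 i'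
          unfold Sol
          rw [← hc.1]
          exact_mod_cast hz
        · by_cases hc' : (c, i') = (2, s.2.2)
          · rw [if_neg hc, if_pos hc'] at hz
            rw [Prod.mk.injEq] at hc'
            apply h2 i
            unfold Sol
            rw [← hc'.1]
            exact_mod_cast hz.symm
          · rw [if_neg hc, if_neg hc'] at hz
            apply h1 (c, i, i')
            refine ⟨hne, ?_⟩
            apply Fin.ext
            exact_mod_cast hz
    · rw [hasSum_inst]
      refine ⟨s.1, s.2.1, s.2.2, ?_⟩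
      unfold plant
      simp
  have h1 : ((univ : Finset (Fin 3 × Fin m × Fin m)).biUnion
      (fun t => univ.filter (fun z : Fin 3 × Fin m → Fin U => Coll z t))).card * U ≤
      (3 * m ^ 2) * U ^ (3 * m) := by
    calc _ ≤ (∑ t : Fin 3 × Fin m × Fin m,
          (univ.filter (fun z : Fin 3 × Fin m → Fin U => Coll z t)).card) * U :=
          Nat.mul_le_mul_right _ Finset.card_biUnion_le
      _ = ∑ t : Fin 3 × Fin m × Fin m,
          (univ.filter (fun z : Fin 3 × Fin m → Fin U => Coll z t)).card * U := by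
          rw [Finset.sum_mul]
      _ ≤ ∑ _t : Fin 3 × Fin m × Fin m, U ^ (3 * m) :=
          Finset.sum_le_sum (fun t _ => card_coll t)
      _ = (3 * m ^ 2) * U ^ (3 * m) := by
          simp only [Finset.sum_const, Finset.card_univ, Fintype.card_prod, Fintype.card_fin,
            smul_eq_mul]
          ring
  have h2 : ((univ : Finset (Fin m)).biUnion
      (fun k => univ.filter (fun z : Fin 3 × Fin m → Fin U => Sol z (s.1, s.2.1, k)))).card * U ≤
      m * U ^ (3 * m) := by
    calc _ ≤ (∑ k : Fin m,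
          (univ.filter (fun z : Fin 3 × Fin m → Fin U => Sol z (s.1, s.2.1, k))).card) * U :=
          Nat.mul_le_mul_right _ Finset.card_biUnion_le
      _ = ∑ k : Fin m,
          (univ.filter (fun z : Fin 3 × Fin m → Fin U => Sol z (s.1, s.2.1, k))).card * U := by
          rw [Finset.sum_mul]
      _ ≤ ∑ _k : Fin m, U ^ (3 * m) :=
          Finset.sum_le_sum (fun k _ => card_sol (s.1, s.2.1, k))
      _ = m * U ^ (3 * m) := by
          simp only [Finset.sum_const, Finset.card_univ, Fintype.card_fin, smul_eq_mul]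
  calc _ ≤ (((univ : Finset (Fin 3 × Fin m × Fin m)).biUnion
      (fun t => univ.filter (fun z : Fin 3 × Fin m → Fin U => Coll z t))).card +
      ((univ : Finset (Fin m)).biUnion
      (fun k => univ.filter (fun z : Fin 3 × Fin m → Fin U => Sol z (s.1, s.2.1, k)))).card) * U :=
        Nat.mul_le_mul_right _ ((Finset.card_le_card hsub).trans (Finset.card_union_le _ _))
    _ ≤ _ := by rw [add_mul, add_mul]; exact Nat.add_le_add h1 h2

end Pool.Agent.J6H71.Sum3
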