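import Mathlib
import Pool.Agent.J6H71.Sum3.Inst

/-!
# Random instances follow the formal transcript
-/

set_option autoImplicit false

namespace Pool.Agent.J6H71.Sum3

open Finset

variable {m n N U : ℕ} (E : Fin n ≃ (Fin 3 × Fin m) ⊕ Fin (n - 3 * m))

/-- The affine form in the numbers `z` which the program computes after the transcript `τ`. -/
noncomputable def formal (P : Prog n) (τ : List ℕ) : ℝ × (Fin 3 × Fin m → ℝ) :=
  (P.const τ + ∑ l : Fin 3 × Fin m, P.coeff τ (E.symm (Sum.inl l)) * (res l.1 : ℝ) +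
    ∑ q : Fin (n - 3 * m), P.coeff τ (E.symm (Sum.inr q)) * (16 * ((q : ℕ) : ℝ) + 11),
   fun l => 16 * P.coeff τ (E.symm (Sum.inl l)))

/-- The value of an affine form. -/
noncomputable def ev (z : Fin 3 × Fin m → ℤ) (v : ℝ × (Fin 3 × Fin m → ℝ)) : ℝ :=
  v.1 + ∑ l, v.2 l * (z l : ℝ)

lemma value_inst (P : Prog n) (τ : List ℕ) (z : Fin 3 × Fin m → ℤ) :
    P.value (inst E z) τ = ev z (formal E P τ) := by
  unfold Prog.value ev formal
  rw [← E.symm.sum_comp (fun p => P.coeff τ p * ((inst E z p : ℤ) : ℝ)), Fintype.sum_sum_type]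
  have h1 : ∀ l : Fin 3 × Fin m, P.coeff τ (E.symm (Sum.inl l)) *
      ((inst E z (E.symm (Sum.inl l)) : ℤ) : ℝ) =
      P.coeff τ (E.symm (Sum.inl l)) * (res l.1 : ℝ) +
      16 * P.coeff τ (E.symm (Sum.inl l)) * (z l : ℝ) := by
    intro l
    unfold inst
    simp only [Equiv.apply_symm_apply, Sum.elim_inl]
    push_cast
    ring
  have h2 : ∀ q : Fin (n - 3 * m), P.coeff τ (E.symm (Sum.inr q)) *
      ((inst E z (E.symm (Sum.inr q)) : ℤ) : ℝ) =
      P.coeff τ (E.symm (Sum.inr q)) * (16 * ((q : ℕ) : ℝ) + 11) := by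
    intro q
    unfold inst
    simp only [Equiv.apply_symm_apply, Sum.elim_inr]
    push_cast
    ring
  rw [Finset.sum_congr rfl (fun l _ => h1 l), Finset.sum_congr rfl (fun q _ => h2 q),
    Finset.sum_add_distrib]
  ring

/-- The coefficients of the form `b` after the substitution of a planted solution. -/
noncomputable def tilde (s : Fin m × Fin m × Fin m) (b : Fin 3 × Fin m → ℝ) : Fin 3 × Fin m → ℝ :=
  fun l => (if l = (2, s.2.2) then 0 else b l) + (if l = (0, s.1) then b (2, s.2.2) else 0) +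
    (if l = (1, s.2.1) then b (2, s.2.2) else 0)

lemma ev_plant (z : Fin 3 × Fin m → Fin U) (s : Fin m × Fin m × Fin m)
    (v : ℝ × (Fin 3 × Fin m → ℝ)) :
    ev (plant z s) v = v.1 + ∑ l, tilde s v.2 l * ((z l : ℕ) : ℝ) := by
  unfold ev tilde
  congr 1
  have h1 : ∀ l, v.2 l * ((plant z s l : ℤ) : ℝ) =
      (if l = (2, s.2.2) then 0 else v.2 l) * ((z l : ℕ) : ℝ) +
      (if l = (2, s.2.2) then v.2 (2, s.2.2) * (((z (0, s.1) : ℕ) : ℝ) + ((z (1, s.2.1) : ℕ) : ℝ))
        else 0) := by
    intro l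
    unfold plant
    split_ifs with h
    · subst h; push_cast; ring
    · push_cast; ring
  rw [Finset.sum_congr rfl (fun l _ => h1 l), Finset.sum_add_distrib,
    Finset.sum_ite_eq' Finset.univ (2, s.2.2)]
  simp only [add_mul, Finset.sum_add_distrib, ite_mul, zero_mul, Finset.mem_univ, if_true]
  rw [Finset.sum_ite_eq' Finset.univ (0, s.1), Finset.sum_ite_eq' Finset.univ (1, s.2.1)]
  simp only [Finset.mem_univ, if_true]
  ring

lemma ev_sub (z : Fin 3 × Fin m → ℤ) (u v : ℝ × (Fin 3 × Fin m → ℝ)) :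
    ev z u = ev z v ↔ (u.1 - v.1) + ∑ l, (u.2 - v.2) l * (z l : ℝ) = 0 := by
  unfold ev
  simp only [Pi.sub_apply, sub_mul, Finset.sum_sub_distrib]
  constructor <;> intro h <;> linarith

lemma ev_plant_sub (z : Fin 3 × Fin m → Fin U) (s : Fin m × Fin m × Fin m)
    (u v : ℝ × (Fin 3 × Fin m → ℝ)) :
    ev (plant z s) u = ev (plant z s) v ↔
      (u.1 - v.1) + ∑ l, tilde s (u.2 - v.2) l * ((z l : ℕ) : ℝ) = 0 := by
  have h : ev (plant z s) (u - v) = ev (plant z s) u - ev (plant z s) v := by
    unfold ev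
    simp only [Prod.fst_sub, Prod.snd_sub, Pi.sub_apply, sub_mul, Finset.sum_sub_distrib]
    ring
  have h2 := ev_plant z s (u - v)
  rw [h] at h2
  simp only [Prod.fst_sub, Prod.snd_sub] at h2
  rw [← h2, sub_eq_zero]

open Classical in
/-- General union bound over the pairs of forms. -/
lemma card_dev_le {T : ℕ} (G : Finset (ℝ × (Fin 3 × Fin m → ℝ))) (hG : G.card ≤ T)
    (Q : (Fin 3 × Fin m → Fin U) → ℝ × (Fin 3 × Fin m → ℝ) → ℝ × (Fin 3 × Fin m → ℝ) → Prop)
    (hQ : ∀ u ∈ G, ∀ v ∈ G, u ≠ v →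
      (univ.filter (fun z : Fin 3 × Fin m → Fin U => Q z u v)).card * U ≤ U ^ (3 * m)) :
    (univ.filter (fun z : Fin 3 × Fin m → Fin U =>
      ¬ ∀ u ∈ G, ∀ v ∈ G, Q z u v → u = v)).card * U ≤ T ^ 2 * U ^ (3 * m) := by
  have hsub : (univ.filter (fun z : Fin 3 × Fin m → Fin U =>
      ¬ ∀ u ∈ G, ∀ v ∈ G, Q z u v → u = v)) ⊆
      G.offDiag.biUnion (fun p => univ.filter (fun z => Q z p.1 p.2)) := by
    intro z hz
    rw [Finset.mem_filter] at hz
    have h := hz.2
    push Not at h
    obtain ⟨u, hu, v, hv, h1, h2⟩ := h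
    rw [Finset.mem_biUnion]
    exact ⟨(u, v), Finset.mem_offDiag.mpr ⟨hu, hv, h2⟩, by simp [h1]⟩
  calc _ ≤ (∑ p ∈ G.offDiag, (univ.filter (fun z : Fin 3 × Fin m → Fin U => Q z p.1 p.2)).card) * U :=
        Nat.mul_le_mul_right _ ((Finset.card_le_card hsub).trans Finset.card_biUnion_le)
    _ = ∑ p ∈ G.offDiag, (univ.filter (fun z : Fin 3 × Fin m → Fin U => Q z p.1 p.2)).card * U := by
        rw [Finset.sum_mul]
    _ ≤ ∑ _p ∈ G.offDiag, U ^ (3 * m) := by
        apply Finset.sum_le_sum
        intro p hp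
        rw [Finset.mem_offDiag] at hp
        exact hQ p.1 hp.1 p.2 hp.2.1 hp.2.2
    _ = G.offDiag.card * U ^ (3 * m) := by rw [Finset.sum_const, smul_eq_mul]
    _ ≤ T ^ 2 * U ^ (3 * m) := by
        apply Nat.mul_le_mul_right
        rw [Finset.offDiag_card]
        calc G.card * G.card - G.card ≤ G.card * G.card := Nat.sub_le _ _
          _ ≤ T * T := Nat.mul_le_mul hG hG
          _ = T ^ 2 := by ring

open Classical in
lemma card_dev0 {T : ℕ} (G : Finset (ℝ × (Fin 3 × Fin m → ℝ))) (hG : G.card ≤ T) :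
    (univ.filter (fun z : Fin 3 × Fin m → Fin U =>
      ¬ ∀ u ∈ G, ∀ v ∈ G, ev (toInt z) u = ev (toInt z) v → u = v)).card * U ≤
      T ^ 2 * U ^ (3 * m) := by
  apply card_dev_le G hG (fun z u v => ev (toInt z) u = ev (toInt z) v)
  intro u _ v _ huv
  have h : (u.1 - v.1 ≠ 0) ∨ ∃ l, (u.2 - v.2) l ≠ 0 := by
    by_contra hcon
    push Not at hcon
    apply huv
    have h1 : u.1 = v.1 := by linarith [hcon.1]
    have h2 : u.2 = v.2 := by
      funext l
      have := hcon.2 l
      rw [Pi.sub_apply] at this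
      linarith
    exact Prod.ext h1 h2
  have := card_zeros (U := U) (u.1 - v.1) (u.2 - v.2) h
  have e : Fintype.card (Fin 3 × Fin m) = 3 * m := by simp
  rw [e] at this
  have e2 : univ.filter (fun z : Fin 3 × Fin m → Fin U => ev (toInt z) u = ev (toInt z) v) =
      univ.filter (fun z : Fin 3 × Fin m → Fin U =>
        (u.1 - v.1) + ∑ l, (u.2 - v.2) l * ((z l : ℕ) : ℝ) = 0) := by
    apply Finset.filter_congr
    intro z _
    rw [ev_sub]
    unfold toInt
    push_cast
    rfl
  rw [e2]
  exact this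

open Classical in
lemma card_dev1 {T : ℕ} (G : Finset (ℝ × (Fin 3 × Fin m → ℝ))) (hG : G.card ≤ T)
    (s : Fin m × Fin m × Fin m) (hs : ¬ Covered (G.image Prod.snd) s) :
    (univ.filter (fun z : Fin 3 × Fin m → Fin U =>
      ¬ ∀ u ∈ G, ∀ v ∈ G, ev (plant z s) u = ev (plant z s) v → u = v)).card * U ≤
      T ^ 2 * U ^ (3 * m) := by
  apply card_dev_le G hG (fun z u v => ev (plant z s) u = ev (plant z s) v)
  intro u hu v hv huv
  have h : (u.1 - v.1 ≠ 0) ∨ ∃ l, tilde s (u.2 - v.2) l ≠ 0 := by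
    by_contra hcon
    push Not at hcon
    obtain ⟨hc1, hc2⟩ := hcon
    have h1 : u.1 = v.1 := by linarith
    have h3 : (u.2 - v.2) (0, s.1) + (u.2 - v.2) (2, s.2.2) = 0 := by
      have := hc2 (0, s.1)
      unfold tilde at this
      simpa using this
    have h4 : (u.2 - v.2) (1, s.2.1) + (u.2 - v.2) (2, s.2.2) = 0 := by
      have := hc2 (1, s.2.1)
      unfold tilde at this
      simpa using this
    have h5 : ∀ l, l ≠ (0, s.1) → l ≠ (1, s.2.1) → l ≠ (2, s.2.2) → (u.2 - v.2) l = 0 := by
      intro l a b c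
      have := hc2 l
      unfold tilde at this
      simpa [a, b, c] using this
    by_cases hz : (u.2 - v.2) (2, s.2.2) = 0
    · apply huv
      apply Prod.ext h1
      funext l
      have : (u.2 - v.2) l = 0 := by
        by_cases a : l = (0, s.1)
        · rw [a]; linarith
        · by_cases b : l = (1, s.2.1)
          · rw [b]; linarith
          · by_cases c : l = (2, s.2.2)
            · rw [c]; exact hz
            · exact h5 l a b c
      rw [Pi.sub_apply] at this
      linarith
    · apply hs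
      refine ⟨u.2, Finset.mem_image_of_mem _ hu, v.2, Finset.mem_image_of_mem _ hv, ?_, ?_, ?_⟩
      · intro l
        constructor
        · rintro h rfl
          apply hz
          have : (u.2 - v.2) (0, s.1) = 0 := by rw [Pi.sub_apply, h, sub_self]
          linarith
        · intro h
          have := h5 (0, l) (by simpa using h) (by simp) (by simp)
          rw [Pi.sub_apply] at this
          linarith
      · intro l
        constructor
        · rintro h rfl
          apply hz
          have : (u.2 - v.2) (1, s.2.1) = 0 := by rw [Pi.sub_apply, h, sub_self]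
          linarith
        · intro h
          have := h5 (1, l) (by simp) (by simpa using h) (by simp)
          rw [Pi.sub_apply] at this
          linarith
      · intro l
        constructor
        · rintro h rfl
          apply hz
          rw [Pi.sub_apply, h, sub_self]
        · intro h
          have := h5 (2, l) (by simp) (by simp) (by simpa using h)
          rw [Pi.sub_apply] at this
          linarith
  have := card_zeros (U := U) (u.1 - v.1) (tilde s (u.2 - v.2)) h
  have e : Fintype.card (Fin 3 × Fin m) = 3 * m := by simp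
  rw [e] at this
  have e2 : univ.filter (fun z : Fin 3 × Fin m → Fin U => ev (plant z s) u = ev (plant z s) v) =
      univ.filter (fun z : Fin 3 × Fin m → Fin U =>
        (u.1 - v.1) + ∑ l, tilde s (u.2 - v.2) l * ((z l : ℕ) : ℝ) = 0) := by
    apply Finset.filter_congr
    intro z _
    rw [ev_plant_sub]
  rw [e2]
  exact this

end Pool.Agent.J6H71.Sum3
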