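import Mathlib
import Pool.Agent.J6H71.Sum3.Dense

/-!
# The main inequality for generic group programs
-/

set_option autoImplicit false

namespace Pool.Agent.J6H71.Sum3

open Finset

variable {m n N U : ℕ}

/-- The program gives the answer `b` after it has computed at most `T` values. -/
def Prog.Within (P : Prog n) (x : Fin n → ℤ) (T : ℕ) (b : Bool) : Prop := ∃ t ≤ T, P.Answers x t b

lemma within_unique (P : Prog n) (x : Fin n → ℤ) (T : ℕ) (h1 : P.Within x T true)
    (h2 : P.Within x T false) : False := by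
  obtain ⟨t, -, ht, ht'⟩ := h1
  obtain ⟨s, -, hs, hs'⟩ := h2
  rcases lt_trichotomy t s with h | h | h
  · have := hs' t h
    rw [ht] at this; simp at this
  · subst h
    rw [ht] at hs; simp at hs
  · have := ht' s h
    rw [hs] at this; simp at this

/-- The formal program gives the answer. -/
def FWithin (E : Fin n ≃ (Fin 3 × Fin m) ⊕ Fin (n - 3 * m)) (P : Prog n) (T : ℕ) (b : Bool) : Prop :=
  ∃ t ≤ T, P.answer (trans (formal E P) t).1 = some b ∧
    ∀ s < t, P.answer (trans (formal E P) s).1 = none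

lemma within_formal (E : Fin n ≃ (Fin 3 × Fin m) ⊕ Fin (n - 3 * m)) (P : Prog n) (T : ℕ) (b : Bool)
    (z : Fin 3 × Fin m → ℤ)
    (h : ∀ u ∈ (trans (formal E P) T).2, ∀ v ∈ (trans (formal E P) T).2, ev z u = ev z v → u = v) :
    P.Within (inst E z) T b ↔ FWithin E P T b := by
  have htr : ∀ t ≤ T, P.tr (inst E z) t = (trans (formal E P) t).1 := by
    intro t ht
    unfold Prog.tr
    have e : P.value (inst E z) = fun τ => ev z (formal E P τ) := by
      funext τ; exact value_inst E P τ z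
    rw [e]
    exact trans_eq (formal E P) (ev z) T h t ht
  unfold Prog.Within FWithin Prog.Answers
  constructor
  · rintro ⟨t, ht, h1, h2⟩
    refine ⟨t, ht, by rw [← htr t ht]; exact h1, fun s hs => ?_⟩
    rw [← htr s (hs.le.trans ht)]; exact h2 s hs
  · rintro ⟨t, ht, h1, h2⟩
    refine ⟨t, ht, by rw [htr t ht]; exact h1, fun s hs => ?_⟩
    rw [htr s (hs.le.trans ht)]; exact h2 s hs

open Classical in
theorem main_ineq (E : Fin n ≃ (Fin 3 × Fin m) ⊕ Fin (n - 3 * m)) (hm : 0 < m) (hU : 0 < U)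
    (hN : 32 * U + 5 ≤ N) (hn : 16 * n + 11 ≤ N) (Ω : Type*) [Fintype Ω] (μ : Ω → ℝ)
    (hμ0 : ∀ ω, 0 ≤ μ ω) (hμ1 : ∑ ω, μ ω = 1) (P : Ω → Prog n) (T : ℕ)
    (hP : ∀ x, Valid n N x →
      2 / 3 ≤ ∑ ω, μ ω * (if (P ω).Within x T (decide (HasSum x)) then (1 : ℝ) else 0)) :
    (1 : ℝ) / 3 ≤ (6 * m ^ 2 + m + m ^ 3 + 2 * T ^ 2) / U + 3 * (T * (Nat.log 2 T) ^ 2) / m ^ 2 := by
  obtain ⟨Z, hZ⟩ : ∃ Z : ℝ, Z = (U : ℝ) ^ (3 * m) := ⟨_, rfl⟩
  have hUr : (0 : ℝ) < U := by exact_mod_cast hU
  have hmr : (0 : ℝ) < m := by exact_mod_cast hm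
  have hZ0 : 0 < Z := by rw [hZ]; positivity
  have hcardZ : (Fintype.card (Fin 3 × Fin m → Fin U) : ℝ) = Z := by
    rw [hZ]; simp
  have hcardS : (Fintype.card (Fin m × Fin m × Fin m) : ℝ) = (m : ℝ) ^ 3 := by
    simp only [Fintype.card_prod, Fintype.card_fin]; push_cast; ring
  have conv : ∀ (X C : ℕ), X * U ≤ C * U ^ (3 * m) → (X : ℝ) ≤ C * Z / U := by
    intro X C h
    rw [le_div_iff₀ hUr, hZ]
    exact_mod_cast h
  -- the families of formal values
  obtain ⟨G, hG⟩ : ∃ G : Ω → Finset (ℝ × (Fin 3 × Fin m → ℝ)),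
    G = fun ω => (trans (formal E (P ω)) T).2.toFinset := ⟨_, rfl⟩
  have hGc : ∀ ω, (G ω).card ≤ T := by
    intro ω
    rw [hG]
    refine (List.toFinset_card_le _).trans ?_
    rw [trans_length]
  obtain ⟨A, hA⟩ : ∃ A : Ω → (Fin n → ℤ) → ℝ,
    A = fun ω x => if (P ω).Within x T true then (1 : ℝ) else 0 := ⟨_, rfl⟩
  obtain ⟨g, hg⟩ : ∃ g : Ω → ℝ, g = fun ω => if FWithin E (P ω) T true then (1 : ℝ) else 0 :=
    ⟨_, rfl⟩
  have hA0 : ∀ ω x, 0 ≤ A ω x := by intro ω x; rw [hA]; dsimp only; split_ifs <;> norm_num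
  have hA1 : ∀ ω x, A ω x ≤ 1 := by intro ω x; rw [hA]; dsimp only; split_ifs <;> norm_num
  have hg0 : ∀ ω, 0 ≤ g ω := by intro ω; rw [hg]; dsimp only; split_ifs <;> norm_num
  have hg1 : ∀ ω, g ω ≤ 1 := by intro ω; rw [hg]; dsimp only; split_ifs <;> norm_num
  -- (a)
  have ha : ∀ z : Fin 3 × Fin m → Fin U, ∑ ω, μ ω * A ω (inst E (toInt z)) ≤
      1 / 3 + (if ¬ (Valid n N (inst E (toInt z)) ∧ ¬ HasSum (inst E (toInt z)))
        then (1 : ℝ) else 0) := by
    intro z
    split_ifs with hz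
    · have h1 := hP _ hz.1
      have h2 : decide (HasSum (inst E (toInt z))) = false := by simpa using hz.2
      rw [h2] at h1
      have h3 : ∑ ω, μ ω * A ω (inst E (toInt z)) + ∑ ω, μ ω *
          (if (P ω).Within (inst E (toInt z)) T false then (1 : ℝ) else 0) ≤ 1 := by
        rw [← Finset.sum_add_distrib]
        refine le_trans (Finset.sum_le_sum (g := μ) ?_) hμ1.le
        intro ω _
        rw [← mul_add]
        have : A ω (inst E (toInt z)) +
            (if (P ω).Within (inst E (toInt z)) T false then (1 : ℝ) else 0) ≤ 1 := by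
          rw [hA]
          dsimp only
          by_cases h1 : (P ω).Within (inst E (toInt z)) T true
          · have h2 : ¬ (P ω).Within (inst E (toInt z)) T false :=
              fun h => within_unique _ _ _ h1 h
            rw [if_pos h1, if_neg h2]; norm_num
          · rw [if_neg h1]; split_ifs <;> norm_num
        calc μ ω * _ ≤ μ ω * 1 := mul_le_mul_of_nonneg_left this (hμ0 ω)
          _ = μ ω := mul_one _
      linarith
    · calc ∑ ω, μ ω * A ω (inst E (toInt z)) ≤ ∑ ω, μ ω * 1 :=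
            Finset.sum_le_sum (fun ω _ => mul_le_mul_of_nonneg_left (hA1 ω _) (hμ0 ω))
        _ = 1 := by simp [hμ1]
        _ ≤ _ := by norm_num
  -- (b)
  have hb : ∀ (s : Fin m × Fin m × Fin m) (z : Fin 3 × Fin m → Fin U),
      2 / 3 - (if ¬ (Valid n N (inst E (plant z s)) ∧ HasSum (inst E (plant z s)))
        then (1 : ℝ) else 0) ≤ ∑ ω, μ ω * A ω (inst E (plant z s)) := by
    intro s z
    split_ifs with hz
    · have h1 := hP _ hz.1
      have h2 : decide (HasSum (inst E (plant z s))) = true := by simpa using hz.2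
      rw [h2] at h1
      rw [hA]
      dsimp only
      linarith
    · have : 0 ≤ ∑ ω, μ ω * A ω (inst E (plant z s)) :=
        Finset.sum_nonneg (fun ω _ => mul_nonneg (hμ0 ω) (hA0 ω _))
      linarith
  -- (c)
  have hc : ∀ ω (z : Fin 3 × Fin m → Fin U), g ω -
      (if ¬ ∀ u ∈ G ω, ∀ v ∈ G ω, ev (toInt z) u = ev (toInt z) v → u = v then (1 : ℝ) else 0) ≤
      A ω (inst E (toInt z)) := by
    intro ω z
    split_ifs with hz
    · have h := within_formal E (P ω) T true (toInt z) (by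
        intro u hu v hv huv
        apply hz u _ v _ huv
        · rw [hG]; exact List.mem_toFinset.mpr hu
        · rw [hG]; exact List.mem_toFinset.mpr hv)
      rw [hA, hg]
      dsimp only
      simp only [h, sub_zero, le_refl]
    · linarith [hg1 ω, hA0 ω (inst E (toInt z))]
  -- (d)
  have hd : ∀ ω s (z : Fin 3 × Fin m → Fin U), A ω (inst E (plant z s)) ≤ g ω +
      (if ¬ ∀ u ∈ G ω, ∀ v ∈ G ω, ev (plant z s) u = ev (plant z s) v → u = v
        then (1 : ℝ) else 0) := by
    intro ω s z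
    split_ifs with hz
    · have h := within_formal E (P ω) T true (plant z s) (by
        intro u hu v hv huv
        apply hz u _ v _ huv
        · rw [hG]; exact List.mem_toFinset.mpr hu
        · rw [hG]; exact List.mem_toFinset.mpr hv)
      rw [hA, hg]
      dsimp only
      simp only [h, add_zero, le_refl]
    · linarith [hg0 ω, hA1 ω (inst E (plant z s))]
  obtain ⟨γ, hγ⟩ : ∃ γ : ℝ, γ = ∑ ω, μ ω * g ω := ⟨_, rfl⟩
  -- null side
  have hnull : γ * Z - T ^ 2 * Z / U ≤ Z / 3 + (3 * m ^ 2 + m ^ 3) * Z / U := by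
    have h1 : ∑ z : Fin 3 × Fin m → Fin U, ∑ ω, μ ω * A ω (inst E (toInt z)) ≤
        Z / 3 + (3 * m ^ 2 + m ^ 3) * Z / U := by
      refine (Finset.sum_le_sum (fun z _ => ha z)).trans ?_
      rw [Finset.sum_add_distrib, Finset.sum_const, Finset.card_univ, nsmul_eq_mul, hcardZ,
        Finset.sum_boole]
      have := conv _ _ (card_bad0 (m := m) (U := U) E hN hn)
      push_cast at this
      linarith
    have h2 : ∀ ω, g ω * Z - T ^ 2 * Z / U ≤
        ∑ z : Fin 3 × Fin m → Fin U, A ω (inst E (toInt z)) := by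
      intro ω
      refine le_trans ?_ (Finset.sum_le_sum (fun z _ => hc ω z))
      rw [Finset.sum_sub_distrib, Finset.sum_const, Finset.card_univ, nsmul_eq_mul, hcardZ,
        Finset.sum_boole]
      have := conv _ _ (card_dev0 (m := m) (U := U) (G ω) (hGc ω))
      push_cast at this
      linarith
    calc γ * Z - T ^ 2 * Z / U = ∑ ω, μ ω * (g ω * Z - T ^ 2 * Z / U) := by
          simp only [mul_sub, Finset.sum_sub_distrib]
          rw [← Finset.sum_mul, hμ1, one_mul, hγ, Finset.sum_mul]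
          congr 1
          apply Finset.sum_congr rfl
          intro ω _; ring
      _ ≤ ∑ ω, μ ω * ∑ z : Fin 3 × Fin m → Fin U, A ω (inst E (toInt z)) :=
          Finset.sum_le_sum (fun ω _ => mul_le_mul_of_nonneg_left (h2 ω) (hμ0 ω))
      _ = ∑ z : Fin 3 × Fin m → Fin U, ∑ ω, μ ω * A ω (inst E (toInt z)) := by
          simp only [Finset.mul_sum]
          rw [Finset.sum_comm]
      _ ≤ _ := h1
  -- planted side
  have hplant : (m : ℝ) ^ 3 * (2 / 3 * Z) - (m : ℝ) ^ 3 * ((3 * m ^ 2 + m) * Z / U) ≤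
      γ * (m ^ 3 * Z) + (m ^ 3 * (T ^ 2 * Z / U) + 3 * (T * (Nat.log 2 T) ^ 2 * m) * Z) := by
    have h1 : (m : ℝ) ^ 3 * (2 / 3 * Z) - (m : ℝ) ^ 3 * ((3 * m ^ 2 + m) * Z / U) ≤
        ∑ s : Fin m × Fin m × Fin m, ∑ z : Fin 3 × Fin m → Fin U,
          ∑ ω, μ ω * A ω (inst E (plant z s)) := by
      have h11 : ∀ s : Fin m × Fin m × Fin m, 2 / 3 * Z - (3 * m ^ 2 + m) * Z / U ≤
          ∑ z : Fin 3 × Fin m → Fin U, ∑ ω, μ ω * A ω (inst E (plant z s)) := by
        intro s
        refine le_trans ?_ (Finset.sum_le_sum (fun z _ => hb s z))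
        rw [Finset.sum_sub_distrib, Finset.sum_const, Finset.card_univ, nsmul_eq_mul, hcardZ,
          Finset.sum_boole]
        have := conv _ _ (card_bad1 (m := m) (U := U) E hN hn s)
        push_cast at this
        linarith
      calc _ = ∑ _s : Fin m × Fin m × Fin m, (2 / 3 * Z - (3 * m ^ 2 + m) * Z / U) := by
            rw [Finset.sum_const, Finset.card_univ, nsmul_eq_mul, hcardS]; ring
        _ ≤ _ := Finset.sum_le_sum (fun s _ => h11 s)
    have h2 : ∀ ω, ∑ s : Fin m × Fin m × Fin m, ∑ z : Fin 3 × Fin m → Fin U,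
        A ω (inst E (plant z s)) ≤ g ω * (m ^ 3 * Z) +
          (m ^ 3 * (T ^ 2 * Z / U) + 3 * (T * (Nat.log 2 T) ^ 2 * m) * Z) := by
      intro ω
      have h21 : ∀ s : Fin m × Fin m × Fin m, ∑ z : Fin 3 × Fin m → Fin U,
          A ω (inst E (plant z s)) ≤ g ω * Z + T ^ 2 * Z / U +
            (if Covered ((G ω).image Prod.snd) s then Z else 0) := by
        intro s
        refine (Finset.sum_le_sum (fun z _ => hd ω s z)).trans ?_
        rw [Finset.sum_add_distrib, Finset.sum_const, Finset.card_univ, nsmul_eq_mul, hcardZ,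
          Finset.sum_boole]
        split_ifs with hs
        · have h3 : ((univ.filter (fun z : Fin 3 × Fin m → Fin U =>
              ¬ ∀ u ∈ G ω, ∀ v ∈ G ω, ev (plant z s) u = ev (plant z s) v → u = v)).card : ℝ) ≤
              Z := by
            rw [← hcardZ]
            exact_mod_cast Finset.card_le_univ _
          have h4 : 0 ≤ (T : ℝ) ^ 2 * Z / U := by positivity
          linarith
        · have := conv _ _ (card_dev1 (m := m) (U := U) (G ω) (hGc ω) s hs)
          push_cast at this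
          linarith
      refine (Finset.sum_le_sum (fun s _ => h21 s)).trans ?_
      rw [Finset.sum_add_distrib, Finset.sum_const, Finset.card_univ, nsmul_eq_mul, hcardS]
      have h5 : ∑ s : Fin m × Fin m × Fin m,
          (if Covered ((G ω).image Prod.snd) s then Z else 0) ≤
          3 * (T * (Nat.log 2 T) ^ 2 * m) * Z := by
        rw [← Finset.sum_filter, Finset.sum_const, nsmul_eq_mul]
        apply mul_le_mul_of_nonneg_right _ hZ0.le
        have := card_covered (m := m) (T := T) ((G ω).image Prod.snd)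
          (Finset.card_image_le.trans (hGc ω))
        exact_mod_cast this
      linarith
    refine h1.trans ?_
    calc ∑ s : Fin m × Fin m × Fin m, ∑ z : Fin 3 × Fin m → Fin U,
          ∑ ω, μ ω * A ω (inst E (plant z s)) =
        ∑ ω, μ ω * ∑ s : Fin m × Fin m × Fin m, ∑ z : Fin 3 × Fin m → Fin U,
          A ω (inst E (plant z s)) := by
          simp only [Finset.mul_sum]
          rw [Finset.sum_comm]
          rw [Finset.sum_congr rfl (fun z _ => Finset.sum_comm)]
          rw [Finset.sum_comm]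
          apply Finset.sum_congr rfl
          intro ω _
          rw [Finset.sum_comm]
      _ ≤ ∑ ω, μ ω * (g ω * (m ^ 3 * Z) +
          (m ^ 3 * (T ^ 2 * Z / U) + 3 * (T * (Nat.log 2 T) ^ 2 * m) * Z)) :=
          Finset.sum_le_sum (fun ω _ => mul_le_mul_of_nonneg_left (h2 ω) (hμ0 ω))
      _ = _ := by
          simp only [mul_add, Finset.sum_add_distrib, ← Finset.sum_mul, hμ1, one_mul]
          rw [hγ, Finset.sum_mul]
          congr 1
          apply Finset.sum_congr rfl
          intro ω _; ring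
  -- combine
  have hkey : (m : ℝ) ^ 3 * Z * (1 / 3) ≤ (m : ℝ) ^ 3 * Z *
      ((6 * m ^ 2 + m + m ^ 3 + 2 * T ^ 2) / U + 3 * (T * (Nat.log 2 T) ^ 2) / m ^ 2) := by
    have e1 : (m : ℝ) ^ 3 * Z *
      ((6 * m ^ 2 + m + m ^ 3 + 2 * T ^ 2) / U + 3 * (T * (Nat.log 2 T) ^ 2) / m ^ 2) =
      (m : ℝ) ^ 3 * ((3 * m ^ 2 + m) * Z / U) + (m : ℝ) ^ 3 * ((3 * m ^ 2 + m ^ 3) * Z / U) +
      2 * ((m : ℝ) ^ 3 * (T ^ 2 * Z / U)) + 3 * (T * (Nat.log 2 T) ^ 2 * m) * Z := by
      field_simp
      ring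
    rw [e1]
    have h3 := mul_le_mul_of_nonneg_left hnull (by positivity : (0 : ℝ) ≤ (m : ℝ) ^ 3)
    nlinarith [h3, hplant]
  exact le_of_mul_le_mul_left hkey (by positivity)

end Pool.Agent.J6H71.Sum3
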