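import Mathlib
import Pool.Agent.J6H71.Sum3.Main

/-!
# Lower bounds for generic group programs
-/

set_option autoImplicit false

namespace Pool.Agent.J6H71.Sum3

open Finset

open Classical in
theorem bound_T {n N : ℕ} (hn : 1000 ≤ n) (hN : n ^ 3 ≤ N) (Ω : Type*) [Fintype Ω] (μ : Ω → ℝ)
    (hμ0 : ∀ ω, 0 ≤ μ ω) (hμ1 : ∑ ω, μ ω = 1) (P : Ω → Prog n) (T : ℕ)
    (hP : ∀ x, Valid n N x →
      2 / 3 ≤ ∑ ω, μ ω * (if (P ω).Within x T (decide (HasSum x)) then (1 : ℝ) else 0)) :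
    (N : ℝ) ≤ 400 * T ^ 2 ∨ (n : ℝ) ^ 2 ≤ 2500 * (T * (Nat.log 2 T) ^ 2) := by
  by_contra hcon
  push Not at hcon
  obtain ⟨h1, h2⟩ := hcon
  obtain ⟨m, hm⟩ : ∃ m, m = n / 10 := ⟨_, rfl⟩
  obtain ⟨U, hU⟩ : ∃ U, U = (N - 5) / 32 := ⟨_, rfl⟩
  have hN3 : 1000 ^ 2 * n ≤ N := by
    calc 1000 ^ 2 * n ≤ n ^ 2 * n := by gcongr
      _ = n ^ 3 := by ring
      _ ≤ N := hN
  have hNbig : 1000000000 ≤ N := by omega
  have hE : Fintype.card (Fin n) = Fintype.card ((Fin 3 × Fin m) ⊕ Fin (n - 3 * m)) := by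
    simp only [Fintype.card_fin, Fintype.card_sum, Fintype.card_prod]
    omega
  have E := Fintype.equivOfCardEq hE
  have key := main_ineq (m := m) (U := U) E (by omega) (by omega) (by omega) (by omega) Ω μ hμ0 hμ1
    P T hP
  have hUlow : (0.03124 : ℝ) * N ≤ U := by
    have : N ≤ 32 * U + 36 := by omega
    have h3 : (N : ℝ) ≤ 32 * U + 36 := by exact_mod_cast this
    have h4 : (1000000000 : ℝ) ≤ N := by exact_mod_cast hNbig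
    linarith
  have hnr : (1000 : ℝ) ≤ n := by exact_mod_cast hn
  have hmup : (m : ℝ) ≤ n / 10 := by
    have : 10 * m ≤ n := by omega
    have h3 : (10 : ℝ) * m ≤ n := by exact_mod_cast this
    linarith
  have hmlow : 0.099 * (n : ℝ) ≤ m := by
    have : n ≤ 10 * m + 9 := by omega
    have h3 : (n : ℝ) ≤ 10 * m + 9 := by exact_mod_cast this
    linarith
  have hm0 : (0 : ℝ) ≤ m := Nat.cast_nonneg m
  have hNr : (n : ℝ) ^ 3 ≤ N := by exact_mod_cast hN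
  have hUpos : (0 : ℝ) < U := by nlinarith [hnr, hNr, sq_nonneg (n : ℝ)]
  have hmpos : (0 : ℝ) < m := by linarith
  have e1 : (6 * (m : ℝ) ^ 2 + m + m ^ 3 + 2 * T ^ 2) / U ≤ 0.195 := by
    rw [div_le_iff₀ hUpos]
    have a1 : (m : ℝ) ^ 2 ≤ n ^ 2 / 100 := by nlinarith
    have a2 : (m : ℝ) ^ 3 ≤ n ^ 3 / 1000 := by
      calc (m : ℝ) ^ 3 ≤ (n / 10) ^ 3 := pow_le_pow_left₀ hm0 hmup 3
        _ = n ^ 3 / 1000 := by ring
    have a3 : (n : ℝ) ^ 2 * 1000 ≤ n ^ 3 := by nlinarith [sq_nonneg (n : ℝ)]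
    have a4 : (n : ℝ) * 1000000 ≤ n ^ 3 := by nlinarith [sq_nonneg (n : ℝ)]
    nlinarith
  have e2 : 3 * ((T : ℝ) * (Nat.log 2 T) ^ 2) / m ^ 2 ≤ 0.125 := by
    rw [div_le_iff₀ (by positivity)]
    have a1 : (0.099 * (n : ℝ)) ^ 2 ≤ m ^ 2 := pow_le_pow_left₀ (by positivity) hmlow 2
    nlinarith
  linarith

open Classical in
theorem bound_T' {n N : ℕ} (hn : 1000 ≤ n) (hN : n ^ 3 ≤ N) (Ω : Type*) [Fintype Ω] (μ : Ω → ℝ)
    (hμ0 : ∀ ω, 0 ≤ μ ω) (hμ1 : ∑ ω, μ ω = 1) (P : Ω → Prog n) (T : ℕ)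
    (hP : ∀ x, Valid n N x →
      2 / 3 ≤ ∑ ω, μ ω * (if (P ω).Within x T (decide (HasSum x)) then (1 : ℝ) else 0)) :
    (N : ℝ) ≤ 400 * T ^ 2 ∨ (n : ℝ) ^ 2 ≤ 12000 * (T * (Nat.log 2 n) ^ 2) := by
  rcases bound_T hn hN Ω μ hμ0 hμ1 P T hP with h | h
  · exact Or.inl h
  · right
    have hL : 9 ≤ Nat.log 2 n := by
      apply Nat.le_log_of_pow_le (by norm_num)
      omega
    have hLr : (9 : ℝ) ≤ Nat.log 2 n := by exact_mod_cast hL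
    by_cases hT : T < n ^ 2
    · have h1 : Nat.log 2 T ≤ 2 * Nat.log 2 n + 1 := by
        have h2 : n < 2 ^ (Nat.log 2 n + 1) := Nat.lt_pow_succ_log_self (by norm_num) n
        have h3 : T < 2 ^ (2 * Nat.log 2 n + 2) := by
          calc T < n ^ 2 := hT
            _ ≤ (2 ^ (Nat.log 2 n + 1)) ^ 2 := Nat.pow_le_pow_left h2.le 2
            _ = 2 ^ (2 * Nat.log 2 n + 2) := by ring
        have : Nat.log 2 T < 2 * Nat.log 2 n + 2 := Nat.log_lt_of_lt_pow' (by omega) h3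
        omega
      have h2 : (Nat.log 2 T : ℝ) ≤ 2 * Nat.log 2 n + 1 := by exact_mod_cast h1
      have h3 : (Nat.log 2 T : ℝ) ^ 2 ≤ (2 * Nat.log 2 n + 1) ^ 2 :=
        pow_le_pow_left₀ (Nat.cast_nonneg _) h2 2
      have h4 : 2500 * (2 * (Nat.log 2 n : ℝ) + 1) ^ 2 ≤ 12000 * (Nat.log 2 n) ^ 2 := by nlinarith
      have hT0 : (0 : ℝ) ≤ T := Nat.cast_nonneg T
      calc (n : ℝ) ^ 2 ≤ 2500 * (T * (Nat.log 2 T) ^ 2) := h
        _ ≤ 2500 * (T * (2 * Nat.log 2 n + 1) ^ 2) := by gcongr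
        _ = T * (2500 * (2 * Nat.log 2 n + 1) ^ 2) := by ring
        _ ≤ T * (12000 * (Nat.log 2 n) ^ 2) := by gcongr
        _ = 12000 * (T * (Nat.log 2 n) ^ 2) := by ring
    · push Not at hT
      have h1 : (n : ℝ) ^ 2 ≤ T := by exact_mod_cast hT
      have hT0 : (0 : ℝ) ≤ T := Nat.cast_nonneg T
      nlinarith [mul_nonneg hT0 (sq_nonneg (Nat.log 2 n : ℝ)),
        mul_le_mul_of_nonneg_left (by nlinarith : (1 : ℝ) ≤ (Nat.log 2 n) ^ 2) hT0]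

open Classical in
theorem bound_E {n N : ℕ} (hn : 1000 ≤ n) (hN : n ^ 3 ≤ N) (Ω : Type*) [Fintype Ω] (μ : Ω → ℝ)
    (hμ0 : ∀ ω, 0 ≤ μ ω) (hμ1 : ∑ ω, μ ω = 1) (P : Ω → Prog n) (E : ℝ)
    (hP : ∀ x, Valid n N x → ∃ τ : Ω → ℕ, (∀ ω, (P ω).Answers x (τ ω) (decide (HasSum x))) ∧
      ∑ ω, μ ω * τ ω ≤ E) :
    (N : ℝ) ≤ 3600 * E ^ 2 ∨ (n : ℝ) ^ 2 ≤ 36000 * (E * (Nat.log 2 n) ^ 2) := by
  have hE0 : 0 ≤ E := by
    have hv : Valid n N (fun i => ((i : ℕ) : ℤ)) := by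
      constructor
      · intro i j h
        dsimp only at h
        exact Fin.ext (by exact_mod_cast h)
      · intro i
        have h1 := i.2
        have h2 : n ≤ n ^ 3 := Nat.le_self_pow (by norm_num) n
        dsimp only
        rw [abs_of_nonneg (by positivity)]
        exact_mod_cast (by omega : (i : ℕ) ≤ N)
    obtain ⟨τ, -, h⟩ := hP _ hv
    refine le_trans ?_ h
    exact Finset.sum_nonneg (fun ω _ => mul_nonneg (hμ0 ω) (Nat.cast_nonneg _))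
  have hfl : ((⌊3 * E⌋₊ : ℕ) : ℝ) ≤ 3 * E := Nat.floor_le (by linarith)
  have hfl2 : 3 * E < (⌊3 * E⌋₊ : ℕ) + 1 := Nat.lt_floor_add_one _
  have key := bound_T' hn hN Ω μ hμ0 hμ1 P ⌊3 * E⌋₊ (by
    intro x hx
    obtain ⟨τ, h1, h2⟩ := hP x hx
    have h3 : ∀ ω, 1 - (τ ω : ℝ) / ((⌊3 * E⌋₊ : ℕ) + 1) ≤
        (if (P ω).Within x ⌊3 * E⌋₊ (decide (HasSum x)) then (1 : ℝ) else 0) := by
      intro ω
      have hpos : (0 : ℝ) < (⌊3 * E⌋₊ : ℕ) + 1 := by positivity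
      split_ifs with h
      · have : 0 ≤ (τ ω : ℝ) / ((⌊3 * E⌋₊ : ℕ) + 1) := by positivity
        linarith
      · have h4 : ⌊3 * E⌋₊ + 1 ≤ τ ω := by
          by_contra hc
          exact h ⟨τ ω, by omega, h1 ω⟩
        have h5 : (1 : ℝ) ≤ (τ ω : ℝ) / ((⌊3 * E⌋₊ : ℕ) + 1) := by
          rw [one_le_div hpos]
          exact_mod_cast h4
        linarith
    calc (2 : ℝ) / 3 ≤ 1 - E / ((⌊3 * E⌋₊ : ℕ) + 1) := by
          have hpos : (0 : ℝ) < (⌊3 * E⌋₊ : ℕ) + 1 := by positivity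
          have : E / ((⌊3 * E⌋₊ : ℕ) + 1) ≤ 1 / 3 := by
            rw [div_le_iff₀ hpos]; linarith
          linarith
      _ ≤ 1 - (∑ ω, μ ω * τ ω) / ((⌊3 * E⌋₊ : ℕ) + 1) := by gcongr
      _ = ∑ ω, μ ω * (1 - (τ ω : ℝ) / ((⌊3 * E⌋₊ : ℕ) + 1)) := by
          simp only [mul_sub, mul_one, Finset.sum_sub_distrib, hμ1]
          rw [Finset.sum_div]
          congr 1
          apply Finset.sum_congr rfl
          intro ω _; ring
      _ ≤ _ := Finset.sum_le_sum (fun ω _ => mul_le_mul_of_nonneg_left (h3 ω) (hμ0 ω)))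
  have hf0 : (0 : ℝ) ≤ (⌊3 * E⌋₊ : ℕ) := Nat.cast_nonneg _
  rcases key with h | h
  · left
    calc (N : ℝ) ≤ 400 * ((⌊3 * E⌋₊ : ℕ) : ℝ) ^ 2 := h
      _ ≤ 400 * (3 * E) ^ 2 := by gcongr
      _ = 3600 * E ^ 2 := by ring
  · right
    calc (n : ℝ) ^ 2 ≤ 12000 * (((⌊3 * E⌋₊ : ℕ) : ℝ) * (Nat.log 2 n) ^ 2) := h
      _ ≤ 12000 * ((3 * E) * (Nat.log 2 n) ^ 2) := by gcongr
      _ = 36000 * (E * (Nat.log 2 n) ^ 2) := by ring

end Pool.Agent.J6H71.Sum3
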